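import Pool.Agent.L0h19.QE.Stm

set_option autoImplicit false

/-!
# Small quadratic exponential sums at all frequencies
-/

namespace Pool.Agent.L0h26.QE

open Finset Filter Topology
open Pool.Agent.L0h87.LE (ee odds Inv MZ RHO HasOddDensity)
open Pool.Agent.L0h19.QE

theorem norm_ee (x : ℝ) : ‖ee x‖ = 1 := by
  unfold ee
  rw [show (2 * Real.pi * Complex.I * x : ℂ) = ((2 * Real.pi * x : ℝ) : ℂ) * Complex.I by
    push_cast; ring]
  exact Complex.norm_exp_ofReal_mul_I _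

theorem small {f : ℕ → ℝ} {C : ℝ} (hSMQ : S_SMQ) (hC0 : 0 ≤ C) (hC : ∀ n, |f n| ≤ C) (hM : MZ f)
    {ε K₁ : ℝ} (hε : 0 < ε) (hK₁ : 0 < K₁) :
    ∀ᶠ N : ℕ in atTop, ∀ β : ℝ, |β| * N ^ 2 ≤ K₁ → ‖S2 f N β‖ ≤ ε * N := by
  obtain ⟨e2, he2⟩ : ∃ e2 : ℝ, e2 = ε / (1 + 2 * Real.pi * K₁) := ⟨_, rfl⟩
  have he20 : 0 < e2 := by rw [he2]; positivity
  obtain ⟨N₀, hN₀⟩ := hM e2 he20
  have hlarge : ∀ᶠ N : ℕ in atTop, C * N₀ ≤ e2 * N := by
    have h1 : Tendsto (fun N : ℕ => e2 * (N : ℝ)) atTop atTop :=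
      tendsto_natCast_atTop_atTop.const_mul_atTop he20
    exact h1.eventually_ge_atTop _
  filter_upwards [hlarge] with N hN β hβ
  have hN0 : (0 : ℝ) ≤ N := Nat.cast_nonneg _
  have h1 := hSMQ f N (e2 * N) β (by positivity) (fun y hy => by
    rcases le_or_gt N₀ y with h | h
    · refine (hN₀ y h).trans (mul_le_mul_of_nonneg_left ?_ he20.le)
      exact_mod_cast hy
    · refine le_trans ?_ hN
      refine (Finset.abs_sum_le_sum_abs _ _).trans ((Finset.sum_le_sum fun n _ => hC n).trans ?_)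
      rw [Finset.sum_const, nsmul_eq_mul, mul_comm]
      refine mul_le_mul_of_nonneg_left ?_ hC0
      have h2 : (odds y).card ≤ y := by
        unfold odds
        refine (card_filter_le _ _).trans ?_
        simp
      exact_mod_cast h2.trans h.le)
  refine h1.trans ?_
  have h3 : 1 + 2 * Real.pi * |β| * N ^ 2 ≤ 1 + 2 * Real.pi * K₁ := by
    have := mul_le_mul_of_nonneg_left hβ (by positivity : 0 ≤ 2 * Real.pi)
    linarith
  refine (mul_le_mul_of_nonneg_left h3 (by positivity)).trans (le_of_eq ?_)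
  rw [he2]
  field_simp

theorem t_FUR : S_FUR := by
  intro hRHO hBLK hMINB hMAJ hTRA hINT hBESQ hMID hSMQ q f C hq hC hI hMZ ε hε
  have hC0 : 0 ≤ C := (abs_nonneg _).trans (hC 0)
  have hC1 : 0 < C + 1 := by linarith
  have hε4 : 0 < ε / 4 := by positivity
  obtain ⟨c, K₁, hc, hK₁, N₀, hmid⟩ := hMID hRHO hTRA hBLK hINT hBESQ q f C hq hC hI (ε / 4) hε4
  obtain ⟨Q, hQ, hminb⟩ := hMINB (ε / 4 / (C + 1)) (by positivity)
  obtain ⟨c', hc', N₁, hmaj⟩ := hMAJ hBLK q f C hC hI Q (ε / 4) hε4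
  have hcc : 0 < min c c' := lt_min hc hc'
  obtain ⟨a, I₀, hmin⟩ := hminb (min c c' / 4) (by positivity)
  obtain ⟨N₂, hblk⟩ := hBLK q f C hC hI a 0 (dvd_zero q) (2 ^ a) (Or.inl rfl) (ε / 4) hε4
  obtain ⟨N₃, hsm⟩ := eventually_atTop.1 (small hSMQ hC0 hC hMZ hε4 hK₁)
  refine ⟨N₀ + N₁ + N₂ + N₃ + 2 * 2 ^ a * (I₀ + 1), fun N hN α => ?_⟩
  have hN0 : (0 : ℝ) ≤ N := Nat.cast_nonneg _
  have hM0 : 0 < 2 * 2 ^ a := by positivity
  obtain ⟨I, hIdef⟩ : ∃ I, I = N / (2 * 2 ^ a) := ⟨_, rfl⟩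
  have i1 : 2 * 2 ^ a * I ≤ N := by rw [hIdef]; exact Nat.mul_div_le N (2 * 2 ^ a)
  have i2 : N < 2 * 2 ^ a * (I + 1) := by
    rw [hIdef]
    exact Nat.lt_mul_div_succ N hM0
  have i3 : I₀ + 1 ≤ I := by
    rw [hIdef, Nat.le_div_iff_mul_le hM0]
    have : (I₀ + 1) * (2 * 2 ^ a) = 2 * 2 ^ a * (I₀ + 1) := mul_comm _ _
    omega
  have hI1 : (1 : ℝ) ≤ I := by
    have : 1 ≤ I := by omega
    exact_mod_cast this
  have j1 : 2 * (2 : ℝ) ^ a * I ≤ N := by exact_mod_cast i1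
  have j2 : (N : ℝ) ≤ 2 * 2 ^ a * (I + 1) := by exact_mod_cast i2.le
  have h2a : (0 : ℝ) < 2 ^ a := by positivity
  rcases hmin I (by omega) α with h | ⟨r, p, hr1, hrQ, hr⟩
  · -- the block sums are small
    have hb := hblk N (by omega) (fun n => ee (α * (n : ℝ) ^ 2)) (fun n => (norm_ee _).le)
    have hmain : ‖∑ i ∈ range (N / (2 * 2 ^ a)), (f (2 * 2 ^ a * i + 1) : ℂ) *
        ∑ s ∈ range (2 ^ a), ee (α * ((2 * 2 ^ a * i + 2 * s + 1 : ℕ) : ℝ) ^ 2)‖ ≤ ε / 4 * N := by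
      rw [← hIdef]
      refine (norm_sum_le _ _).trans ?_
      have h1 : ∀ i ∈ range I, ‖(f (2 * 2 ^ a * i + 1) : ℂ) *
          ∑ s ∈ range (2 ^ a), ee (α * ((2 * 2 ^ a * i + 2 * s + 1 : ℕ) : ℝ) ^ 2)‖ ≤
          C * ‖bl α (2 ^ a) i‖ := by
        intro i _
        rw [norm_mul]
        refine mul_le_mul ?_ (le_of_eq rfl) (norm_nonneg _) hC0
        rw [Complex.norm_real, Real.norm_eq_abs]
        exact hC _
      refine (Finset.sum_le_sum h1).trans ?_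
      rw [← Finset.mul_sum]
      have h3 : C * (ε / 4 / (C + 1) * 2 ^ a * I) ≤ ε / 4 * N := by
        have h4 : C * (ε / 4 / (C + 1)) ≤ ε / 4 := by
          rw [mul_div_assoc', div_le_iff₀ hC1]
          nlinarith
        have h5 : (2 : ℝ) ^ a * I ≤ N := by
          have : 0 ≤ (2 : ℝ) ^ a * I := by positivity
          linarith
        calc C * (ε / 4 / (C + 1) * 2 ^ a * I) = C * (ε / 4 / (C + 1)) * (2 ^ a * I) := by ring
          _ ≤ ε / 4 * N := mul_le_mul h4 h5 (by positivity) hε4.le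
      exact (mul_le_mul_of_nonneg_left h hC0).trans h3
    have e : S2 f N α = (S2 f N α - ∑ i ∈ range (N / (2 * 2 ^ a)), (f (2 * 2 ^ a * i + 1) : ℂ) *
        ∑ s ∈ range (2 ^ a), ee (α * ((2 * 2 ^ a * i + 2 * s + 1 : ℕ) : ℝ) ^ 2)) +
        ∑ i ∈ range (N / (2 * 2 ^ a)), (f (2 * 2 ^ a * i + 1) : ℂ) *
        ∑ s ∈ range (2 ^ a), ee (α * ((2 * 2 ^ a * i + 2 * s + 1 : ℕ) : ℝ) ^ 2) := by ring
    rw [e]
    refine (norm_add_le _ _).trans ?_
    have hb' : ‖S2 f N α - ∑ i ∈ range (N / (2 * 2 ^ a)), (f (2 * 2 ^ a * i + 1) : ℂ) *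
        ∑ s ∈ range (2 ^ a), ee (α * ((2 * 2 ^ a * i + 2 * s + 1 : ℕ) : ℝ) ^ 2)‖ ≤ ε / 4 * N := hb
    have : 0 ≤ ε * N := by positivity
    linarith
  · -- `α` is near a rational number
    have h4 : (N : ℝ) ≤ 4 * (2 ^ a * I) := by
      have : (2 : ℝ) ^ a * 1 ≤ 2 ^ a * I := mul_le_mul_of_nonneg_left hI1 h2a.le
      linarith
    have hpos : (0 : ℝ) < 2 ^ a * I := by positivity
    have h5 : |α - p / r| * N ≤ min c c' := by
      have h6 : |α - p / r| * (2 ^ a * I) ≤ min c c' / 4 := by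
        rwa [le_div_iff₀ hpos] at hr
      calc |α - p / r| * N ≤ |α - p / r| * (4 * (2 ^ a * I)) :=
            mul_le_mul_of_nonneg_left h4 (abs_nonneg _)
        _ = 4 * (|α - p / r| * (2 ^ a * I)) := by ring
        _ ≤ 4 * (min c c' / 4) := mul_le_mul_of_nonneg_left h6 (by norm_num)
        _ = min c c' := by ring
    have h7 := hmaj N (by omega) α r p hr1 hrQ (h5.trans (min_le_right _ _))
    have h8 : ‖S2 f N (α - p / r)‖ ≤ ε / 4 * N := by
      rcases le_total K₁ (|α - p / r| * N ^ 2) with h9 | h9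
      · exact hmid N (by omega) _ h9 (h5.trans (min_le_left _ _))
      · exact hsm N (by omega) _ h9
    have : 0 ≤ ε * N := by positivity
    linarith

end Pool.Agent.L0h26.QE
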